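import Pool.Agent.helper70.QSD.SpecC

/-!
# Row qsd:FSX (MP_7a3aac_co): finite satisfiability
-/

set_option autoImplicit false

namespace Pool.Agent.helper70.QSD

open Pool.Agent.helper53.AU
open scoped Classical IntermediateField Polynomial
open Filter (Tendsto atTop)

theorem FSX (hFRB : FRB_stmt) (hPRS : PRS_stmt) (hIDN : IDN_stmt) (hFS1 : FS1_stmt) (hFS2 : FS2_stmt) :
    FSX_stmt := by
  intro N' Φ Φ' hFr hT A f hPos y hy hΦy rep hrep E hE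
  obtain ⟨y₁, z, m, P, h, Gr, GΦ, Gx, hpack⟩ := hPRS Φ A hPos.good y hy hΦy E hE
  obtain ⟨ΦA, hcong⟩ := hIDN Φ A hPos.good E y₁ z m P h Gr GΦ Gx hpack
  choose σ hσ using fun j => hFRB.2 (N' j)
  obtain ⟨d, hd⟩ := hFS1 N' Φ Φ' hFr A f hPos E y₁ z m P h Gr GΦ Gx ΦA hpack hcong rep hrep σ hσ
  obtain ⟨N₀, hN₀⟩ := hFS2 d
  have hN : ∀ᶠ j in (UU : Filter ℕ), N₀ ≤ N' j :=
    Nat.hyperfilter_le_atTop (hT.eventually_ge_atTop N₀)
  filter_upwards [hd, hN] with j hj hNj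
  obtain ⟨P_, h_, Gr_, G_, Gx_, hJ⟩ := hj
  exact hN₀ (N' j) hNj m (σ j) (hσ j) Φ A E _ P_ h_ Gr_ G_ Gx_ hJ

end Pool.Agent.helper70.QSD
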